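import Pool.Agent.Lib.MP_97eeef_nt.S9.Form

/-!
Mukai's model of K3 surfaces of genus 18, the common zero locus of five sections of the rank two
spinor bundle on the orthogonal Grassmannian of isotropic three-dimensional subspaces `U` of a
nine-dimensional quadratic space, has a point over the maximal solvable extension `K` of the
rationals.  The fibre `A` at `U` consists of the spinors killed by `U`.
-/

namespace Pool.Agent.Results.MP_97eeef_nt.MukaiGenus18

open Pool.Agent.Lib.MP_97eeef_nt

theorem result {K V S : Type*} [Field K] (e : K ≃+* Qsolv) [AddCommGroup V] [Module K V]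
    [AddCommGroup S] [Module K S] (Q : QuadraticForm K V) (hQ : Q.Nondegenerate)
    (hV : Module.finrank K V = 9) (hS : Module.finrank K S = 16)
    (ρ : CliffordAlgebra Q →ₐ[K] Module.End K S) (l : Fin 5 → Module.Dual K S) :
    ∃ (U : Submodule K V) (A : Submodule K S), Module.finrank K U = 3 ∧ (∀ u ∈ U, Q u = 0) ∧
      (∀ x, x ∈ A ↔ ∀ u ∈ U, ρ (CliffordAlgebra.ι Q u) x = 0) ∧ Module.finrank K A = 2 ∧
      ∀ i, ∀ x ∈ A, l i x = 0 := by
  have : CharZero K := e.toRingHom.charZero
  have h : ∀ n : ℕ, n ≠ 0 → ∀ a : K, ∃ x, x ^ n = a := fun n hn a => by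
    obtain ⟨x, hx⟩ := Qsolv_root n hn (e a)
    exact ⟨e.symm x, e.injective (by simpa using hx)⟩
  exact S9.main (R4_of_roots (h 2 two_ne_zero) (h 3 three_ne_zero)) Q hQ hV hS ρ l

end Pool.Agent.Results.MP_97eeef_nt.MukaiGenus18
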