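import Pool.Agent.Lib.MP_97eeef_nt.GTwo

/-!
Mukai's Grassmannian models of K3 surfaces of genus 8, 9, 10, 12 and 20 have points over the
maximal solvable extension of the rationals.  A row `(k, n, a, b, c)` describes the locus of
`k`-dimensional subspaces `W` of an `n`-dimensional space `V` on which `a` alternating two-forms
and `b` alternating three-forms vanish, and such that `c` alternating three-forms vanish on
`W × W × V`.
-/

namespace Pool.Agent.Retired.MP_97eeef_nt.MukaiK3

open Pool.Agent.Lib.MP_97eeef_nt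

theorem result (k n a b c : ℕ)
    (h : (k, n, a, b, c) ∈ ({(2, 6, 6, 0, 0), (3, 6, 1, 4, 0), (2, 7, 3, 0, 1), (3, 7, 3, 1, 0),
      (4, 9, 3, 0, 0)} : Set (ℕ × ℕ × ℕ × ℕ × ℕ))) :
    CommonPlane Qsolv (Fin n → Qsolv) k a b c :=
  schema R4_Qsolv k n a b c (by simpa only [Set.mem_insert_iff, Set.mem_singleton_iff] using h)

end Pool.Agent.Retired.MP_97eeef_nt.MukaiK3
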